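import Mathlib
import Pool.Agent.helper68.SF.SpecS

set_option autoImplicit false

namespace SF

open Pool.Agent.helper72.Sq Matrix

theorem RHO : RHO_stmt := by
  intro P hP
  have hz : 2 < P.2.2 := hP.z2
  obtain ⟨q, hq0, hq⟩ : ∃ q : ℝ, q ≠ 0 ∧ q⁻¹ + q = P.2.2 := by
    have hs : 0 ≤ P.2.2 ^ 2 - 4 := by nlinarith
    have hsq : √(P.2.2 ^ 2 - 4) ^ 2 = P.2.2 ^ 2 - 4 := Real.sq_sqrt hs
    have h0 : 0 ≤ √(P.2.2 ^ 2 - 4) := Real.sqrt_nonneg _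
    refine ⟨(P.2.2 + √(P.2.2 ^ 2 - 4)) / 2, by positivity, ?_⟩
    have hne : (P.2.2 + √(P.2.2 ^ 2 - 4)) ≠ 0 := by positivity
    field_simp
    nlinarith
  let A : SpecialLinearGroup (Fin 2) ℝ := ⟨!![P.1, -1; 1, 0], by simp [Matrix.det_fin_two_of]⟩
  let B : SpecialLinearGroup (Fin 2) ℝ := ⟨!![0, q; -q⁻¹, P.2.1], by
    simp [Matrix.det_fin_two_of, hq0]⟩
  refine ⟨mk2 A B, ?_⟩
  simp only [trTri, map_mul, mk2_a, mk2_b]
  refine Prod.ext ?_ (Prod.ext ?_ ?_)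
  · simp [tr, A, Matrix.trace_fin_two]
  · simp [tr, B, Matrix.trace_fin_two]
  · simp [tr, A, B, Matrix.trace_fin_two, Matrix.mul_apply, Fin.sum_univ_two, hq]

end SF
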